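import Pool.Agent.H23.Dk2
import Pool.Agent.H23.F3c

set_option autoImplicit false

namespace Pool.Agent.Results.MP_93e790_lc.W1Hard
open Pool.Agent.H11.PT Pool.Agent.H25.FP Pool.Agent.H23.Dk Pool.Agent.H23.Ori Finset

abbrev X := (ℕ × List (ℕ × ℕ)) × ℕ

def R (x : X) (i j a b : ℕ) : Prop :=
  (i = j ∧ a = b) ∨ (¬ i = j ∧ ¬ a = b ∧ ((a, b) ∈ x.1.2 ∨ (b, a) ∈ x.1.2))

theorem clique_iff (x : X) : CLIQUE x ↔ ∃ a b : ℕ → ℕ, (∀ i < x.2, a i < x.1.1 ∧ b i < x.1.1) ∧
    ∀ i < x.2, ∀ j < x.2, R x i j (a i) (b j) := by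
  constructor
  · rintro ⟨S, hc, hn⟩
    let e := (S.orderIsoOfFin hn)
    let a : ℕ → ℕ := fun i => if h : i < x.2 then (e ⟨i, h⟩).1.1 else 0
    refine ⟨a, a, fun i hi => by simp [a, hi], fun i hi j hj => ?_⟩
    simp only [R, a, hi, hj, dite_true]
    by_cases h : i = j
    · subst h; simp
    · have h1 : (e ⟨i, hi⟩).1 ≠ (e ⟨j, hj⟩).1 := fun g => h (by
        simpa using e.injective (Subtype.ext g))
      have h2 := hc (e ⟨i, hi⟩).2 (e ⟨j, hj⟩).2 h1
      simp only [gr, SimpleGraph.fromRel_adj] at h2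
      simpa [h, Fin.val_inj] using h2
  · rintro ⟨a, b, h0, h⟩
    have h1 : ∀ i < x.2, a i = b i := fun i hi => by simpa [R] using h i hi i hi
    have h2 : ∀ i < x.2, ∀ j < x.2, i ≠ j → a i ≠ a j ∧ ((a i, a j) ∈ x.1.2 ∨ (a j, a i) ∈ x.1.2) :=
      fun i hi j hj hij => by simpa [R, hij, h1 j hj] using h i hi j hj
    let f : Fin x.2 → Fin x.1.1 := fun i => ⟨a i, (h0 i i.2).1⟩
    have hf : Function.Injective f := fun i j e => by
      by_contra hn
      exact (h2 i i.2 j j.2 (by simpa [Fin.val_inj] using hn)).1 (congrArg Fin.val e)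
    refine ⟨Finset.univ.image f, ?_, by simp [Finset.card_image_of_injective _ hf]⟩
    intro u hu v hv huv
    obtain ⟨i, _, rfl⟩ := Finset.mem_image.1 hu
    obtain ⟨j, _, rfl⟩ := Finset.mem_image.1 hv
    simp only [gr, SimpleGraph.fromRel_adj]
    exact ⟨huv, (h2 i i.2 j j.2 fun e => huv (congrArg f (Fin.ext e))).2⟩

def a0 (x : X) (a : ℕ) : ℕ := alp (x.2 * x.1.1 + 1) a
def pL (x : X) : ℕ := x.2 * a0 x x.1.1 + 1
def pZ (x : X) : ℕ := (x.2 + 1) * ((x.2 + 1) * (a0 x x.1.1 + pL x * a0 x x.1.1 + 1))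
def pW (x : X) : ℕ := (x.2 + 1) * pZ x
def pB (x : X) : ℕ := pW x + pZ x + 1
def pc (x : X) : ℕ := pB x + (x.2 + 1) * ((x.2 + 1) * pZ x)
def pK (x : X) : ℕ := (x.2 + 1) * ((x.2 + 1) * (pc x + pW x))

def al (x : X) (i j y : ℕ) : Prop :=
  (¬ (i < x.2 ∧ j < x.2) ∨ ∃ a ∈ List.range x.1.1, ∃ b ∈ List.range x.1.1, R x i j a b ∧
    y = pW x + (a0 x a + pL x * a0 x b)) ∧
  (¬ (i < x.2 ∧ j = x.2) ∨ ∃ a ∈ List.range x.1.1, (pW x - y) % pL x = x.2 * a0 x a) ∧
  (¬ (i = x.2 ∧ j < x.2) ∨ ∃ b ∈ List.range x.1.1, (pW x - y) / pL x = x.2 * a0 x b)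

noncomputable def tau (x : X) (i j u : ℕ) : ℕ :=
  ((List.range (pB x)).find? fun s => dc (u < pc x + s ∧ al x i j s)).getD (pB x)

def vs (x : X) : List A :=
  List.range (x.2 + 1) ×ˢ List.range (x.2 + 1) ×ˢ List.range (pc x + (pW x + pZ x))

noncomputable def red (x : X) : Inst :=
  (vs x, (vs x ×ˢ vs x).filter fun e => dc (ad (pc x) (pB x) (tau x) e.1 e.2), pK x,
    (pK x * pK x + (2 * pB x + 2 * pc x) * pK x - (pK x + 2 * (x.2 + 1) *
      ((x.2 + 1) * (pc x + pW x)) ^ 2 + 2 * pB x * pc x * (x.2 + 1) ^ 2) + 1) / 2)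

theorem PT_red : PT red := by
  have h0 : PT fun p : X × ℕ => a0 p.1 p.2 := by unfold a0 alp; fun_prop
  have h1 : PT pL := by unfold pL; fun_prop
  have h2 : PT pZ := by unfold pZ; fun_prop
  have h3 : PT pW := by unfold pW; fun_prop
  have h4 : PT pB := by unfold pB; fun_prop
  have h5 : PT pc := by unfold pc; fun_prop
  have h6 : PT pK := by unfold pK; fun_prop
  have h7 : PT fun p : X × ℕ × ℕ × ℕ => tau p.1 p.2.1 p.2.2.1 p.2.2.2 := by
    unfold tau al R; fun_prop
  have h8 : PT vs := by unfold vs; fun_prop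
  unfold red ad ia Ne; fun_prop

theorem md (x : X) (i j : ℕ) : Md (pc x) (pB x) (pW x + pZ x) (tau x i j) (al x i j) := by
  have k : ∀ u, (tau x i j u = pB x ∧ ∀ s < pB x, u < pc x + s → ¬ al x i j s) ∨
      (tau x i j u < pB x ∧ (u < pc x + tau x i j u ∧ al x i j (tau x i j u)) ∧
        ∀ s < tau x i j u, u < pc x + s → ¬ al x i j s) := fun u => by
    unfold tau
    cases e : List.find? _ _ with
    | none => exact .inl ⟨rfl, by simpa using e⟩
    | some t =>
      rw [List.find?_range_eq_some] at e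
      exact .inr ⟨by simpa using e.2.1, by simpa using e.1, by simpa [← Bool.not_eq_true] using e.2.2⟩
  refine ⟨⟨Nat.lt_succ_self _, Nat.le_add_right _ _⟩, fun u e => ?_, fun u e => ?_, fun u s e a => ?_⟩
  · have := k u; unfold pB at *; omega
  · exact ((k u).resolve_left (by omega)).2.1.2
  · exact not_lt.1 fun f => (k u).elim (fun h => h.2 s (by omega) e a) fun h => h.2.2 s f e a

theorem adj (x : X) {a b : A} (ha : a ∈ vs x) (hb : b ∈ vs x) :
    (G (red x).2.1).Adj a b ↔ ad (pc x) (pB x) (tau x) a b := by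
  obtain ⟨i, j, u⟩ := a
  obtain ⟨i', j', u'⟩ := b
  simp only [G, red, SimpleGraph.fromRel_adj, List.mem_filter, List.mem_product, ha, hb, dc_iff, ad,
    ia, ne_eq, Prod.mk.injEq, true_and]
  by_cases a : i = i' <;> by_cases b : j = j' <;> simp [a, b, @eq_comm _ i' i, @eq_comm _ j' j]
  omega

theorem tf (x : X) : (vs x).toFinset =
    range (x.2 + 1) ×ˢ range (x.2 + 1) ×ˢ range (pc x + (pW x + pZ x)) := by
  ext ⟨i, j, u⟩; simp [vs]

theorem width (x : X) : mw (red x) ≤ (x.2 + 1) * (x.2 + 1) := by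
  refine Nat.sInf_le (show Bld _ _ _ from ?_)
  have m : ∀ (t : Fin ((x.2 + 1) * (x.2 + 1))) (v : A), v ∈ ({t.1 / (x.2 + 1)} ×ˢ {t.1 % (x.2 + 1)} ×ˢ
      range (pc x + (pW x + pZ x)) : Finset A) → v ∈ vs x := fun t v h => by
    have := Nat.div_lt_of_lt_mul t.2
    have : t.1 % (x.2 + 1) < x.2 + 1 := Nat.mod_lt t.1 x.2.succ_pos
    rw [← List.mem_toFinset, tf]
    simp only [mem_product, mem_singleton, mem_range] at h ⊢; omega
  refine (congrArg _ ?_).mpr (Bld.subst _ ⟨fun t t' : Fin ((x.2 + 1) * (x.2 + 1)) => t.1 / (x.2 + 1) ≠ t'.1 / (x.2 + 1) ∧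
    t.1 % (x.2 + 1) ≠ t'.1 % (x.2 + 1), ⟨fun _ _ h => ⟨h.1.symm, h.2.symm⟩⟩, ⟨by simp⟩⟩
    (fun t => {t.1 / (x.2 + 1)} ×ˢ {t.1 % (x.2 + 1)} ×ˢ range (pc x + (pW x + pZ x))) le_rfl
    (fun t => cog _ (by simp [pc, pB]) fun V e n => ?_) fun t t' h => ?_)
  · rw [show (red x).1 = vs x from rfl, tf]
    ext ⟨i, j, u⟩
    simp only [mem_product, mem_range, mem_biUnion, mem_univ, mem_singleton, true_and]
    refine ⟨fun h => ⟨⟨(x.2 + 1) * i + j, by nlinarith [h.1, h.2.1]⟩, ?_⟩, fun ⟨t, h⟩ => ?_⟩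
    · simp [Nat.mul_add_div, Nat.div_eq_of_lt h.2.1, Nat.mod_eq_of_lt h.2.1, h.2.2]
    · exact ⟨h.1 ▸ Nat.div_lt_of_lt_mul t.2, h.2.1 ▸ Nat.mod_lt _ x.2.succ_pos, h.2.2⟩
  · obtain ⟨v, a, b⟩ := exists_min_image V (·.2.2) n
    refine ⟨v, a, fun u c w d f g => or_iff_not_imp_left.2 fun z => .inl ?_⟩
    rcases f with rfl | f
    · exact g
    rw [adj x (m _ _ (e ‹_›)) (m _ _ (e ‹_›))] at f g ⊢
    have := b u c
    have := b w d
    have e1 := e a
    have e2 := e c
    have e3 := e d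
    obtain ⟨v1, v2, v⟩ := v
    obtain ⟨u1, u2, u⟩ := u
    obtain ⟨w1, w2, w⟩ := w
    simp only [mem_product, mem_singleton] at e1 e2 e3
    simp [ad, ia, e1, e2, e3] at *
    omega
  · have : ¬ (t.1 / (x.2 + 1) = t'.1 / (x.2 + 1) ∧ t.1 % (x.2 + 1) = t'.1 % (x.2 + 1)) := fun e =>
      h (Fin.ext (by rw [← Nat.div_add_mod t.1, e.1, e.2, Nat.div_add_mod]))
    refine ⟨disjoint_left.2 fun v a b => ?_, fun u a w b => ?_⟩
    · simp only [mem_product, mem_singleton] at a b; omega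
    · rw [adj x (m _ _ a) (m _ _ b)]
      simp only [mem_product, mem_singleton] at a b
      simp only [ad, a, b]; tauto

theorem edges (x : X) {S : Finset A} (h : ∀ v ∈ S, v ∈ vs x) :
    2 * (((G (red x).2.1).induce (S : Set A)).edgeSet.ncard : ℤ) = DD (pc x) (pB x) (tau x) S := by
  classical
  rw [two_edges]
  exact sum_congr rfl fun a c => sum_congr rfl fun b d => if_congr (adj x (h a c) (h b d)) rfl rfl

theorem result : W1Hard DkS mw := by
  refine ⟨red, fun k => (k + 1) * (k + 1), PT_red.polyTime,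
    (Primrec.nat_mul.comp Primrec.succ Primrec.succ).to_comp, fun x => ⟨?_, width x⟩⟩
  have v : H23.Dk.val (x.2 + 1 : ℕ) (pc x) (pB x) (pW x) = (pK x * pK x + (2 * pB x + 2 * pc x) * pK x : ℕ) -
      (pK x + 2 * (x.2 + 1) * ((x.2 + 1) * (pc x + pW x)) ^ 2 + 2 * pB x * pc x * (x.2 + 1) ^ 2 : ℕ) := by
    simp only [H23.Dk.val, pK]; push_cast; ring
  have s : ∀ {a : ℕ → ℕ}, (∀ i < x.2, a i < x.1.1) → ∑ i ∈ range x.2, a0 x (a i) < pL x := fun h =>
    Nat.lt_succ_of_le (by simpa [a0] using (sum_le_card_nsmul (range x.2) _ _ fun i m =>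
      alp_le (h i (mem_range.1 m))))
  have l0 : 0 < pL x := Nat.succ_pos _
  rw [clique_iff]
  constructor
  · rintro ⟨a, b, h0, h⟩
    obtain ⟨z, hz⟩ : ∃ z : ℕ → ℕ → ℕ, ∀ i j, z i j = a0 x (a i) + pL x * a0 x (b j) := ⟨_, fun _ _ => rfl⟩
    obtain ⟨z0, z1⟩ : ∃ z0, z0 = a0 x x.1.1 + pL x * a0 x x.1.1 + 1 := ⟨_, rfl⟩
    have z2 : ∀ i < x.2, ∀ j < x.2, z i j ≤ z0 := fun i c j d => by
      have := alp_le (M := x.2 * x.1.1 + 1) (h0 i c).1
      have := Nat.mul_le_mul_left (pL x) (alp_le (M := x.2 * x.1.1 + 1) (h0 j d).2)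
      rw [hz, z1]; unfold a0; omega
    have z3 : ∀ i < x.2, ∑ j ∈ range x.2, z i j ≤ x.2 * z0 := fun i c => by
      simpa using sum_le_card_nsmul (range x.2) _ _ fun j d => z2 i c j (mem_range.1 d)
    have z4 : ∀ j < x.2, ∑ i ∈ range x.2, z i j ≤ x.2 * z0 := fun j d => by
      simpa using sum_le_card_nsmul (range x.2) _ _ fun i c => z2 i (mem_range.1 c) j d
    have z5 : ∑ i ∈ range x.2, ∑ j ∈ range x.2, z i j ≤ x.2 * (x.2 * z0) := by
      simpa using sum_le_card_nsmul (range x.2) _ _ fun i c => z3 i (mem_range.1 c)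
    have z6 : pZ x = x.2 * (x.2 * z0) + 2 * (x.2 * z0) + z0 := by rw [pZ, ← z1]; ring
    have z7 : pZ x ≤ pW x := Nat.le_mul_of_pos_left _ (by omega)
    have r : ∀ f : ℕ → ℕ, (∀ i < x.2, f i ≤ pW x) → ∑ i ∈ range x.2, (pW x - f i) +
        ∑ i ∈ range x.2, f i = x.2 * pW x := fun f e => by
      rw [← sum_add_distrib, sum_congr rfl fun i c => Nat.sub_add_cancel (e i (mem_range.1 c))]; simp
    obtain ⟨S, s1, s2, s3⟩ := sys1 (m := x.2 + 1) (md x) (fun i j => if i < x.2 then if j < x.2 then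
      pW x + z i j else pW x - ∑ j ∈ range x.2, z i j else if j < x.2 then
      pW x - ∑ i ∈ range x.2, z i j else pW x + ∑ i ∈ range x.2, ∑ j ∈ range x.2, z i j)
      (fun i c j d => by
        have := z2 i; have := z3 i; have := z4 j
        by_cases e : i < x.2 <;> by_cases f : j < x.2 <;> simp only [e, f, if_true, if_false, al]
        · exact ⟨by have := z2 i e j f; omega, .inr ⟨a i, by simp [h0, e], b j, by simp [h0, f],
            h i e j f, by rw [hz]⟩, .inl (by omega), .inl (by omega)⟩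
        · refine ⟨by omega, by simp, .inr ⟨a i, by simp [h0, e], ?_⟩, by simp⟩
          have := Nat.mul_le_mul_left x.2 (alp_le (M := x.2 * x.1.1 + 1) (h0 i e).1)
          rw [Nat.sub_sub_self (by omega)]
          simp [hz, sum_add_distrib, ← mul_sum]
          exact Nat.mod_eq_of_lt (Nat.lt_succ_of_le this)
        · refine ⟨by omega, by simp, by simp, .inr ⟨b j, by simp [h0, f], ?_⟩⟩
          rw [Nat.sub_sub_self (by omega)]
          simp [hz, sum_add_distrib, mul_left_comm x.2, Nat.add_mul_div_left _ _ l0,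
            Nat.div_eq_of_lt (s fun i c => (h0 i c).1)]
        · exact ⟨by omega, by simp⟩)
      (fun i c => by
        by_cases e : i < x.2 <;>
          simp +contextual [sum_range_succ, e, sum_congr rfl, sum_add_distrib, add_mul]
        · have := z3 i e; omega
        · have := r _ fun j d => (z4 j d).trans (by omega)
          rw [sum_comm] at this; omega)
      (fun j c => by
        by_cases e : j < x.2 <;>
          simp +contextual [sum_range_succ, e, sum_congr rfl, sum_add_distrib, add_mul]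
        · have := z4 j e; omega
        · have := r _ fun j d => (z3 j d).trans (by omega)
          omega)
    have s4 : ∀ v ∈ S, v ∈ vs x := fun v m => List.mem_toFinset.1 (tf x ▸ s1 m)
    have := edges x s4
    refine ⟨S, s4, s2.le, ?_⟩
    generalize Set.ncard _ = t at this ⊢
    simp only [red]; omega
  · rintro ⟨S, s1, s2, s3⟩
    have := edges x s1
    have z0 : 0 < pZ x := by unfold pZ; positivity
    obtain ⟨y, y1, y2, y3⟩ := sys2 (m := x.2 + 1) (md x) (by unfold pc; omega) (by unfold pW; omega)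
      (fun v m => tf x ▸ List.mem_toFinset.2 (s1 v m)) s2 (by
        generalize Set.ncard _ = t at this s3
        simp only [red] at s3; omega)
    simp only [al, List.mem_range] at y1
    choose! a a1 b a2 a3 a4 using fun i (c : i < x.2) => (fun j (d : j < x.2) =>
      (y1 i (by omega) j (by omega)).1.resolve_left (by omega))
    choose! A A1 A2 using fun i (c : i < x.2) =>
      (y1 i (by omega) x.2 (by omega)).2.1.resolve_left (by omega)
    choose! C C1 C2 using fun j (c : j < x.2) =>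
      (y1 x.2 (by omega) j (by omega)).2.2.resolve_left (by omega)
    refine ⟨A, C, fun i c => ⟨A1 i c, C1 i c⟩, fun i c j d => ?_⟩
    have e1 := y2 i (by omega)
    have e2 := y3 j (by omega)
    rw [sum_range_succ, sum_congr rfl fun j d => a4 i c j (mem_range.1 d)] at e1
    rw [sum_range_succ, sum_congr rfl fun i c => a4 i (mem_range.1 c) j d] at e2
    simp only [sum_add_distrib, ← mul_sum, sum_const, card_range, smul_eq_mul, add_mul] at e1 e2
    have e3 := A2 i c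
    have e4 := C2 j d
    rw [show pW x - y i x.2 = ∑ j ∈ range x.2, a0 x (a i j) + pL x * ∑ j ∈ range x.2, a0 x (b i j) by
      omega, Nat.add_mul_mod_self_left, Nat.mod_eq_of_lt (s (a1 i c))] at e3
    rw [show pW x - y x.2 j = ∑ i ∈ range x.2, a0 x (a i j) + pL x * ∑ i ∈ range x.2, a0 x (b i j) by
      omega, Nat.add_mul_div_left _ _ l0, Nat.div_eq_of_lt (s fun i c => a1 i c j d), zero_add] at e4
    rw [← alp_eq (A1 i c) (a1 i c) e3 j d, ← alp_eq (C1 j d) (fun i c => a2 i c j d) e4 i c]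
    exact a3 i c j d

end Pool.Agent.Results.MP_93e790_lc.W1Hard
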